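import Mathlib

/-!
# `X ^ p - (1 + s)` and `(X + j) ^ p - 1` have no common zero (`p` an odd prime, `j ≥ 1`, `s ≥ 0`)
-/

namespace Pool.Agent.H554.GR

open Polynomial Complex

/-- `(w - j) (1 - j w) = (1 + j²) w - j (w² + 1)`. -/
lemma prod_pow (p j s : ℕ) (w : ℂ) (hw : w ^ p = 1) (hz : (w - j) ^ p = 1 + s) (hp : 0 < p) :
    ((w - j) * (1 - j * w)) ^ p = (1 + s) ^ 2 := by
  have hn : ‖w‖ = 1 := by
    have : ‖w‖ ^ p = 1 := by rw [← norm_pow, hw, norm_one]
    exact (pow_eq_one_iff_of_nonneg (norm_nonneg _) hp.ne').mp this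
  have hc : w * (starRingEnd ℂ) w = 1 := by
    rw [Complex.mul_conj, Complex.normSq_eq_norm_sq, hn]; simp
  have h1 : (1 - j * w) = w * ((starRingEnd ℂ) w - j) := by
    rw [mul_sub, hc]; ring
  have h2 : ((starRingEnd ℂ) w - j) ^ p = 1 + s := by
    have := congrArg (starRingEnd ℂ) hz
    simpa using this
  rw [mul_pow, hz, h1, mul_pow, hw, h2]
  ring

/-- If `w` is a primitive `p`-th root of unity and `(w - j) ^ p = 1 + s`, then the product is the same for `w ^ 2`. -/
lemma conj_step (p j s : ℕ) (w w' : ℂ) (hw : IsPrimitiveRoot w p) (hw' : IsPrimitiveRoot w' p) (hp : 0 < p)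
    (hz : (w - j) ^ p = 1 + s) : ((w' - j) * (1 - j * w')) ^ p = (1 + s) ^ 2 := by
  let h : ℚ[X] := ((X - C (j : ℚ)) * (1 - C (j : ℚ) * X)) ^ p - C ((1 + (s : ℚ)) ^ 2)
  have hev : ∀ x : ℂ, aeval x h = ((x - j) * (1 - j * x)) ^ p - (1 + s) ^ 2 := by
    intro x
    simp [h]
  have h0 : aeval w h = 0 := by
    rw [hev, prod_pow p j s w hw.pow_eq_one hz hp, sub_self]
  have hd : minpoly ℚ w ∣ h := minpoly.dvd ℚ w h0
  have hm : minpoly ℚ w = minpoly ℚ w' := by
    rw [← cyclotomic_eq_minpoly_rat hw hp, ← cyclotomic_eq_minpoly_rat hw' hp]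
  rw [hm] at hd
  obtain ⟨q, hq⟩ := hd
  have : aeval w' h = 0 := by rw [hq, map_mul, minpoly.aeval, zero_mul]
  rw [hev] at this
  exact sub_eq_zero.mp this

lemma norm_eq (j : ℕ) (w : ℂ) (hn : ‖w‖ = 1) :
    ‖(w - j) * (1 - j * w)‖ = 1 + (j : ℝ) ^ 2 - 2 * j * w.re := by
  have hc : w * (starRingEnd ℂ) w = 1 := by
    rw [Complex.mul_conj, Complex.normSq_eq_norm_sq, hn]; simp
  have h1 : (1 - j * w) = w * (starRingEnd ℂ) (w - j) := by
    rw [map_sub, mul_sub, hc]; simp; ring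
  rw [h1, norm_mul, norm_mul, hn, one_mul, Complex.norm_conj, ← sq, ← Complex.normSq_eq_norm_sq,
    Complex.normSq_apply]
  have h2 : w.re * w.re + w.im * w.im = 1 := by
    have := Complex.normSq_apply w
    rw [Complex.normSq_eq_norm_sq, hn] at this
    linarith
  simp
  nlinarith [h2]

theorem no_common_root (p j s : ℕ) (hp : p.Prime) (hp2 : p ≠ 2) (hj : 1 ≤ j) (z : ℂ) (h1 : z ^ p = 1 + s)
    (h2 : (z + j) ^ p = 1) : False := by
  obtain ⟨w, rfl⟩ : ∃ w : ℂ, z = w - j := ⟨z + j, by ring⟩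
  have hw : w ^ p = 1 := by simpa using h2
  have hpos : 0 < p := hp.pos
  have hodd : Odd p := hp.odd_of_ne_two hp2
  have hn : ‖w‖ = 1 := by
    have : ‖w‖ ^ p = 1 := by rw [← norm_pow, hw, norm_one]
    exact (pow_eq_one_iff_of_nonneg (norm_nonneg _) hpos.ne').mp this
  by_cases hw1 : w = 1
  · rw [hw1] at h1
    have : ((1 : ℤ) - j) ^ p = 1 + s := by exact_mod_cast h1
    have h3 : ((1 : ℤ) - j) ^ p ≤ 0 := hodd.pow_nonpos (by
      have : (1 : ℤ) ≤ j := by exact_mod_cast hj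
      linarith)
    have : (0 : ℤ) ≤ s := by positivity
    linarith
  have hprim : IsPrimitiveRoot w p := by
    have := orderOf_eq_prime (p := p) hw hw1 (hp := ⟨hp⟩)
    rw [← this]
    exact IsPrimitiveRoot.orderOf w
  have hcop : Nat.Coprime 2 p := (Nat.coprime_primes Nat.prime_two hp).mpr (Ne.symm hp2)
  have hprim2 : IsPrimitiveRoot (w ^ 2) p := hprim.pow_of_coprime 2 hcop
  have e1 := prod_pow p j s w hw h1 hpos
  have e2 := conj_step p j s w (w ^ 2) hprim hprim2 hpos h1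
  have hn2 : ‖w ^ 2‖ = 1 := by rw [norm_pow, hn, one_pow]
  have hnorm : ‖(w - j) * (1 - j * w)‖ = ‖(w ^ 2 - j) * (1 - j * w ^ 2)‖ := by
    have : ‖(w - j) * (1 - j * w)‖ ^ p = ‖(w ^ 2 - j) * (1 - j * w ^ 2)‖ ^ p := by
      rw [← norm_pow, ← norm_pow, e1, e2]
    exact (pow_left_inj₀ (norm_nonneg _) (norm_nonneg _) hpos.ne').mp this
  rw [norm_eq j w hn, norm_eq j (w ^ 2) hn2] at hnorm
  have hj0 : (0 : ℝ) < j := by exact_mod_cast hj
  have hre : w.re = (w ^ 2).re := by
    have : (j : ℝ) * w.re = j * (w ^ 2).re := by linarith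
    exact mul_left_cancel₀ hj0.ne' this
  have h2' : w.re * w.re + w.im * w.im = 1 := by
    have := Complex.normSq_apply w
    rw [Complex.normSq_eq_norm_sq, hn] at this
    linarith
  have hre2 : (w ^ 2).re = 2 * w.re * w.re - 1 := by
    simp [sq]
    linarith
  have hroot : (w.re - 1) * (2 * w.re + 1) = 0 := by
    rw [hre2] at hre
    linarith
  rcases mul_eq_zero.mp hroot with h | h
  · apply hw1
    have hre1 : w.re = 1 := by linarith
    have him : w.im = 0 := by
      rw [hre1] at h2'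
      have : w.im * w.im = 0 := by linarith
      exact mul_self_eq_zero.mp this
    exact Complex.ext (by simpa using hre1) (by simpa using him)
  · -- `w ^ 3 = 1`, hence `p = 3`
    have hre1 : w.re = -1 / 2 := by linarith
    have hw3 : w ^ 2 + w + 1 = 0 := by
      apply Complex.ext
      · simp [sq]
        rw [hre1] at h2' ⊢
        linarith
      · simp [sq]
        rw [hre1]
        ring
    have hw3' : w ^ 3 = 1 := by
      have : w ^ 3 - 1 = (w - 1) * (w ^ 2 + w + 1) := by ring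
      rw [hw3, mul_zero] at this
      exact sub_eq_zero.mp this
    have hp3 : p = 3 := by
      have := hprim.dvd_of_pow_eq_one 3 hw3'
      exact (Nat.prime_dvd_prime_iff_eq hp Nat.prime_three).mp this
    subst hp3
    have him := congrArg Complex.im h1
    have hexp : (w - j) ^ 3 = 1 - 3 * j * w ^ 2 + 3 * j ^ 2 * w - j ^ 3 := by
      have : (w - j) ^ 3 = w ^ 3 - 3 * j * w ^ 2 + 3 * j ^ 2 * w - j ^ 3 := by ring
      rw [this, hw3']
    have hw2 : w ^ 2 = -w - 1 := by linear_combination hw3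
    rw [hexp, hw2] at him
    have hlin : (1 - 3 * (j : ℂ) * (-w - 1) + 3 * (j : ℂ) ^ 2 * w - (j : ℂ) ^ 3)
        = ((3 * j + 3 * j ^ 2 : ℝ) : ℂ) * w + ((1 + 3 * j - j ^ 3 : ℝ) : ℂ) := by
      push_cast
      ring
    rw [hlin] at him
    have h5 : (3 * (j : ℝ) + 3 * j ^ 2) * w.im = 0 := by
      have e : (((3 * j + 3 * j ^ 2 : ℝ) : ℂ) * w + ((1 + 3 * j - j ^ 3 : ℝ) : ℂ)).im
          = (3 * (j : ℝ) + 3 * j ^ 2) * w.im := by
        rw [Complex.add_im, Complex.im_ofReal_mul, Complex.ofReal_im, add_zero]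
      rw [← e, him]
      simp
    have h6 : w.im = 0 := by
      rcases mul_eq_zero.mp h5 with h | h
      · have : 0 < 3 * (j : ℝ) + 3 * j ^ 2 := by positivity
        linarith
      · exact h
    rw [h6, hre1] at h2'
    norm_num at h2'

end Pool.Agent.H554.GR
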