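import Mathlib
import Pool.Agent.H554.GR.Root

/-!
# Common divisors of `N ^ p - 1 - s` and `(N + j) ^ p - 1` divide a constant
-/

namespace Pool.Agent.H554.GR

open Polynomial

/-- For an odd prime `p`, `j ≥ 1`, `s ≥ 0` all common divisors of `N ^ p - 1 - s` and `(N + j) ^ p - 1` divide one
positive integer, for all `N`. -/
theorem exists_const_odd (p j s : ℕ) (hp : p.Prime) (hp2 : p ≠ 2) (hj : 1 ≤ j) :
    ∃ D : ℕ, 0 < D ∧ ∀ N g : ℤ, g ∣ N ^ p - 1 - s → g ∣ (N + j) ^ p - 1 → g ∣ D := by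
  let f : ℤ[X] := X ^ p - C (1 + (s : ℤ))
  let h : ℤ[X] := (X + C (j : ℤ)) ^ p - 1
  have hcop : IsCoprime (f.map (algebraMap ℤ ℚ)) (h.map (algebraMap ℤ ℚ)) := by
    refine (Polynomial.isCoprime_iff_aeval_ne_zero_of_isAlgClosed ℚ ℂ _ _).mpr ?_
    intro z
    by_contra hcon
    push Not at hcon
    obtain ⟨h1, h2⟩ := hcon
    apply no_common_root p j s hp hp2 hj z
    · have : z ^ p - (1 + s) = 0 := by simpa [f] using h1
      exact sub_eq_zero.mp this
    · have : (z + j) ^ p - 1 = 0 := by simpa [h] using h2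
      exact sub_eq_zero.mp this
  obtain ⟨u, v, huv⟩ := hcop
  obtain ⟨b, hb1, hb2⟩ := IsLocalization.integerNormalization_spec (nonZeroDivisors ℤ) u
  obtain ⟨c, hc1, hc2⟩ := IsLocalization.integerNormalization_spec (nonZeroDivisors ℤ) v
  set U := IsLocalization.integerNormalization (nonZeroDivisors ℤ) u
  set V := IsLocalization.integerNormalization (nonZeroDivisors ℤ) v
  have hb0 : b ≠ 0 := nonZeroDivisors.ne_zero hb1
  have hc0 : c ≠ 0 := nonZeroDivisors.ne_zero hc1
  have key : C c * U * f + C b * V * h = C (b * c) := by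
    apply Polynomial.map_injective (algebraMap ℤ ℚ) (algebraMap ℤ ℚ).injective_int
    simp only [Polynomial.map_add, Polynomial.map_mul, Polynomial.map_C]
    rw [hb2, hc2]
    have e1 : (b • u : ℚ[X]) = C ((algebraMap ℤ ℚ) b) * u := by
      rw [zsmul_eq_mul]; simp
    have e2 : (c • v : ℚ[X]) = C ((algebraMap ℤ ℚ) c) * v := by
      rw [zsmul_eq_mul]; simp
    rw [e1, e2]
    have : C ((algebraMap ℤ ℚ) c) * (C ((algebraMap ℤ ℚ) b) * u) * f.map (algebraMap ℤ ℚ)
        + C ((algebraMap ℤ ℚ) b) * (C ((algebraMap ℤ ℚ) c) * v) * h.map (algebraMap ℤ ℚ)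
        = C ((algebraMap ℤ ℚ) b) * C ((algebraMap ℤ ℚ) c)
          * (u * f.map (algebraMap ℤ ℚ) + v * h.map (algebraMap ℤ ℚ)) := by ring
    rw [this, huv, mul_one]
    simp
  refine ⟨(b * c).natAbs, Int.natAbs_pos.mpr (mul_ne_zero hb0 hc0), ?_⟩
  intro N g h1 h2
  have hev := congrArg (fun P : ℤ[X] => P.eval N) key
  simp only [eval_add, eval_mul, eval_C] at hev
  have hf : f.eval N = N ^ p - 1 - s := by simp [f]; ring
  have hh : h.eval N = (N + j) ^ p - 1 := by simp [h]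
  rw [hf, hh] at hev
  have : g ∣ b * c := by
    rw [← hev]
    exact dvd_add (Dvd.dvd.mul_left h1 _) (Dvd.dvd.mul_left h2 _)
  exact Int.dvd_natAbs.mpr this

end Pool.Agent.H554.GR
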